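import Pool.Agent.Y945.CB.Final

/-!
MP_b29d84_al, Q1: disproof.

The cluster algebra of geometric type of the extended exchange matrix with rows
`(0,-1,2)`, `(1,0,-2)`, `(-3,3,0)` (mutable) and `(3,-1,-4)`, `(1,-3,4)` (coefficients) has no
additive basis with the four properties. In fact it has no additive basis that is stable under
multiplication by the coefficient variables, so property 3 alone already fails.

All notions (`Seed`, `Seed.mutate`, `clusterAlgebra`, `IsAdditiveBasis`, `IsClusterBasis`,
`CoeffStable`) are defined in `Pool/Agent/Y945/CB/Defs.lean`.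

Outline. With mutable variables `a, b, t` and coefficients `c₀, c₁`, the elements
`d, p, q, P, Q, R` given by `a q = b c₀³ c₁ + t³`, `b p = t³ + a c₀ c₁³`,
`t R = c₁⁴ a² + c₀⁴ b²`, `a d = p + c₀³ c₁`, `t P = p² + c₀⁶ c₁²`, `t Q = q² + c₀² c₁⁶` are cluster
variables, and `c₀ c₁ d R = c₀² (a Q - t² q) + c₁² (b P - t² p)`. If an additive basis is stable
under multiplication by `c₀` and `c₁`, comparing supports in this identity gives
`d R = X₁ + X₂` with `c₁ X₁ ∈ c₀ A` and `c₀ X₂ ∈ c₁ A`. The algebra is graded by `ℤ³`, all cluster
variables other than the nine above have large degree (this is a statement about all seeds,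
proved through a description of the exchange graph), and in the relevant degrees this leads to a
contradiction on setting `c₀ = 0` or `c₁ = 0`.
-/

namespace Pool.Agent.Results.MP_b29d84_al.NoCoefficientStableBasis

open Pool.Agent.Y945.CB

/-- There is a cluster algebra of geometric type (rank three, two coefficient variables) without
an additive basis having properties 1 to 4; indeed no additive basis of it has property 3. -/
theorem result :
    ∃ B : Matrix (Fin 3 ⊕ Fin 2) (Fin 3) ℤ,
      B = Matrix.of (Sum.elim ![![0, -1, 2], ![1, 0, -2], ![-3, 3, 0]]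
        ![![3, -1, -4], ![1, -3, 4]]) ∧
      SkewSymmetrizable B ∧
      (¬ ∃ S : Set (Amb 3 2), IsClusterBasis B S) ∧
      ∀ S : Set (Amb 3 2), IsAdditiveBasis B S → ¬ CoeffStable S :=
  ⟨Bm, rfl, Bm_skew, fun ⟨S, hS⟩ => no_stable S hS.basis hS.coeff, no_stable⟩

end Pool.Agent.Results.MP_b29d84_al.NoCoefficientStableBasis
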